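import Pool.Agent.Lib.MP_488d93_nt.Final

/-! For almost all `n` there is a prime `p < n` such that `n + p - π(p)` is prime. -/

set_option autoImplicit false

namespace Pool.Agent.Results.MP_488d93_nt.AlmostAll

open Filter Topology

theorem result : Tendsto (fun x : ℕ =>
    ({n : ℕ | n < x ∧ ¬ ∃ p : ℕ, p.Prime ∧ p < n ∧ (n + p - Nat.primeCounting p).Prime}.ncard : ℝ) /
      (x : ℝ)) atTop (𝓝 0) := by
  classical
  refine Pool.Agent.Lib.MP_488d93_nt.density.congr fun x => ?_
  rw [← Set.ncard_coe_finset]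
  congr 3
  ext n
  simp [Pool.Agent.Lib.MP_488d93_nt.Exc]

end Pool.Agent.Results.MP_488d93_nt.AlmostAll
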